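import Pool.Agent.helper88.RQ2.Spec

set_option autoImplicit false

open Set Matroid RadonMin

namespace RadonQ2

theorem MSX_base (n k : ℤ) : UU 3 n k = TT 3 n (2 * k + 1) := by
  have h1 : hh 5 = 3 := by decide
  have h2 : Nat.choose 3 2 = 3 := by decide
  have h3 : Nat.choose 4 3 = 4 := by decide
  simp only [UU, TT, h1, h2, h3]
  push_cast
  ring

theorem MSX_four : UU 4 11 2 = 17 := by
  have h1 : hh 6 = 7 := by decide
  have h2 : Nat.choose 4 2 = 6 := by decide
  have h3 : Nat.choose 5 3 = 10 := by decide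
  simp only [UU, h1, h2, h3]
  norm_num

theorem MSX_five : UU 5 12 2 = 27 := by
  have h1 : hh 7 = 17 := by decide
  have h2 : Nat.choose 5 2 = 10 := by decide
  have h3 : Nat.choose 6 3 = 20 := by decide
  simp only [UU, h1, h2, h3]
  norm_num

theorem MSX_proof (hMS3 : MS3_stmt) (hMSU : MSU_stmt) (hMU5 : MU5_stmt) : MSX_stmt := by
  intro α M _ hs hg hc k hk hr q hq
  have main : ∀ q : ℕ, 3 ≤ q → ∀ (M : Matroid α) [M.Finite], Simp M → Good M → Conn M →
      ∀ k : ℕ, 2 ≤ k → rk M M.E = 2 * k + 1 → UU q M.E.ncard k < cc M := by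
    intro q hq
    induction q, hq using Nat.le_induction with
    | base =>
      intro M _ hs hg hc k hk hr
      have h := hMS3 α M hs hg hc (by omega)
      rw [hr] at h
      push_cast at h
      rw [MSX_base]
      exact h
    | succ q hq ih =>
      intro M _ hs hg hc k hk hr
      by_cases hex : q + 1 = 5 ∧ k = 2 ∧ M.E.ncard = 12
      · obtain ⟨h1, h2, h3⟩ := hex
        have hq4 : q = 4 := by omega
        subst hq4
        subst h2
        have h4 := hMU5 α M hs hg hc hr h3 (by
          intro N _ hs' hg' hc' hr' hn'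
          have h5 := ih N hs' hg' hc' 2 le_rfl hr'
          rw [hn'] at h5
          have h6 : UU 4 ((11 : ℕ) : ℤ) ((2 : ℕ) : ℤ) = 17 := MSX_four
          rw [h6] at h5
          exact_mod_cast h5)
        rw [h3]
        have h6 : UU (4 + 1) ((12 : ℕ) : ℤ) ((2 : ℕ) : ℤ) = 27 := MSX_five
        rw [h6]
        exact_mod_cast h4
      · exact hMSU α M hs hg hc k hk hr (q + 1) (by omega)
          (by rw [Nat.add_sub_cancel]; exact ih M hs hg hc k hk hr) hex
  exact main q hq M hs hg hc k hk hr

end RadonQ2
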